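import Pool.Agent.N979.CP.Stm

/-!
# CPN2/KEY2 (helper787, project CPN2 of helper979 and helper526): the key matrix inequality with
weights
-/

set_option autoImplicit false

open Matrix Finset

namespace Pool.Agent.N787.CPKEY2

open Pool.Agent.N979.CP

lemma trace_row {n : ℕ} (K B : Matrix (Fin n) (Fin n) ℝ) :
    (K.adjugate * B).trace = ∑ i, (K.updateRow i (B i)).det := by
  have h : ∀ i, (K.updateRow i (B i)).det = ∑ j, B i j * K.adjugate j i := by
    intro i
    rw [Matrix.det_eq_sum_mul_adjugate_row _ i]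
    refine Finset.sum_congr rfl fun j _ => ?_
    rw [Matrix.adjugate_apply, Matrix.adjugate_apply, Matrix.updateRow_idem, Matrix.updateRow_self]
  simp only [h, Matrix.trace, Matrix.diag_apply, Matrix.mul_apply]
  rw [Finset.sum_comm]
  refine Finset.sum_congr rfl fun i _ => Finset.sum_congr rfl fun j _ => mul_comm _ _

lemma det_le (hH : S_HAD) {n : ℕ} (K : Matrix (Fin n) (Fin n) ℝ) (q : Fin n → ℝ) (i : Fin n) :
    |(K.updateRow i q).det| ≤ √(∑ j, q j ^ 2) * ∏ l ∈ univ.erase i, √(∑ j, K l j ^ 2) := by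
  have h := hH n (K.updateRow i q)
  refine abs_le_of_sq_le_sq ?_ (by positivity)
  refine h.trans (le_of_eq ?_)
  rw [← Finset.mul_prod_erase univ _ (Finset.mem_univ i), mul_pow, Matrix.updateRow_self,
    Real.sq_sqrt (by positivity), ← Finset.prod_pow]
  refine congrArg _ (Finset.prod_congr rfl fun l hl => ?_)
  rw [Real.sq_sqrt (by positivity), Matrix.updateRow_ne (Finset.ne_of_mem_erase hl)]

lemma claim_pos (hS : S_SCA) {n : ℕ} (p k r : Fin n → ℝ) (hp : ∀ i, 0 < p i) (hp1 : ∑ i, p i = 1)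
    (hk : ∀ i, 0 < k i) :
    (∑ i, r i * ∏ j ∈ univ.erase i, k j) ^ 2 ≤ ∏ i, ((1 - p i) * k i ^ 2 + r i ^ 2 / p i) := by
  have h := hS n p (fun i => r i / (p i * k i)) (fun i => (hp i).le) hp1
  have e1 : ∑ i, r i * ∏ j ∈ univ.erase i, k j = (∏ j, k j) * ∑ i, p i * (r i / (p i * k i)) := by
    rw [Finset.mul_sum]
    refine Finset.sum_congr rfl fun i _ => ?_
    rw [← Finset.mul_prod_erase univ k (Finset.mem_univ i)]
    have h1 := (hp i).ne'
    have h2 := (hk i).ne'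
    field_simp
  have e2 : ∏ i, ((1 - p i) * k i ^ 2 + r i ^ 2 / p i) =
      (∏ i, k i) ^ 2 * ∏ i, (1 + p i * ((r i / (p i * k i)) ^ 2 - 1)) := by
    rw [← Finset.prod_pow, ← Finset.prod_mul_distrib]
    refine Finset.prod_congr rfl fun i _ => ?_
    have h1 := (hp i).ne'
    have h2 := (hk i).ne'
    field_simp
    ring
  rw [e1, e2, mul_pow]
  exact mul_le_mul_of_nonneg_left h (by positivity)

lemma claim (hS : S_SCA) {n : ℕ} (p k r : Fin n → ℝ) (hp : ∀ i, 0 < p i) (hp1 : ∑ i, p i = 1)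
    (hk : ∀ i, 0 ≤ k i) :
    (∑ i, r i * ∏ j ∈ univ.erase i, k j) ^ 2 ≤ ∏ i, ((1 - p i) * k i ^ 2 + r i ^ 2 / p i) := by
  have hf : Continuous fun t : ℝ => (∑ i, r i * ∏ j ∈ univ.erase i, (k j + t)) ^ 2 := by fun_prop
  have hg : Continuous fun t : ℝ => ∏ i, ((1 - p i) * (k i + t) ^ 2 + r i ^ 2 / p i) := by fun_prop
  have h1 : Filter.Tendsto (fun t : ℝ => (∑ i, r i * ∏ j ∈ univ.erase i, (k j + t)) ^ 2)
      (nhdsWithin 0 (Set.Ioi 0)) (nhds ((∑ i, r i * ∏ j ∈ univ.erase i, (k j + 0)) ^ 2)) :=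
    (hf.tendsto 0).mono_left nhdsWithin_le_nhds
  have h2 : Filter.Tendsto (fun t : ℝ => ∏ i, ((1 - p i) * (k i + t) ^ 2 + r i ^ 2 / p i))
      (nhdsWithin 0 (Set.Ioi 0)) (nhds (∏ i, ((1 - p i) * (k i + 0) ^ 2 + r i ^ 2 / p i))) :=
    (hg.tendsto 0).mono_left nhdsWithin_le_nhds
  have h3 := le_of_tendsto_of_tendsto h1 h2 (by
    filter_upwards [self_mem_nhdsWithin] with t ht
    exact claim_pos hS p (fun j => k j + t) r hp hp1 fun j => add_pos_of_nonneg_of_pos (hk j) ht)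
  simpa only [add_zero] using h3

theorem main (hS : S_SCA) (hH : S_HAD) : S_KEY2 := by
  intro d hd B D p hp hp1 hBD
  obtain ⟨K, hK⟩ : ∃ K, K = B + D := ⟨_, rfl⟩
  rw [← hK]
  obtain ⟨Q, hQ⟩ : ∃ Q : Fin (d + 1) → Fin (d + 1) → ℝ, Q = fun i => B i + (-(1 - p i)) • K i :=
    ⟨_, rfl⟩
  have hsum : ∑ i, (1 - p i) = (d : ℝ) := by
    rw [Finset.sum_sub_distrib, hp1, Finset.sum_const, Finset.card_univ, Fintype.card_fin,
      nsmul_eq_mul]
    push_cast
    ring
  have hF : (K.adjugate * B).trace - d * K.det = ∑ i, (K.updateRow i (Q i)).det := by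
    rw [trace_row, ← hsum, Finset.sum_mul, ← Finset.sum_sub_distrib]
    refine Finset.sum_congr rfl fun i _ => ?_
    rw [hQ, Matrix.det_updateRow_add, Matrix.det_updateRow_smul, Matrix.updateRow_eq_self]
    ring
  rw [hF]
  have hp1' : ∀ i, p i ≤ 1 := fun i => by
    rw [← hp1]
    exact Finset.single_le_sum (fun j _ => (hp j).le) (Finset.mem_univ i)
  have h1 : |∑ i, (K.updateRow i (Q i)).det| ≤
      ∑ i, √(∑ j, Q i j ^ 2) * ∏ l ∈ univ.erase i, √(∑ j, K l j ^ 2) :=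
    (Finset.abs_sum_le_sum_abs _ _).trans (Finset.sum_le_sum fun i _ => det_le hH K (Q i) i)
  have h2 := claim hS p (fun l => √(∑ j, K l j ^ 2)) (fun i => √(∑ j, Q i j ^ 2)) hp hp1
    fun i => Real.sqrt_nonneg _
  have h3 : ∀ i, (1 - p i) * √(∑ j, K i j ^ 2) ^ 2 + √(∑ j, Q i j ^ 2) ^ 2 / p i =
      ∑ j, B i j ^ 2 + (1 - p i) / p i * ∑ j, D i j ^ 2 := by
    intro i
    rw [Real.sq_sqrt (by positivity), Real.sq_sqrt (by positivity), Finset.mul_sum,
      Finset.sum_div, Finset.mul_sum, ← Finset.sum_add_distrib, ← Finset.sum_add_distrib]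
    refine Finset.sum_congr rfl fun j _ => ?_
    have h4 := (hp i).ne'
    rw [hQ, hK]
    simp only [Pi.add_apply, Pi.smul_apply, Matrix.add_apply, smul_eq_mul]
    field_simp
    ring
  simp only [h3] at h2
  have h5 : ∏ i, (∑ j, B i j ^ 2 + (1 - p i) / p i * ∑ j, D i j ^ 2) ≤ 1 := by
    calc ∏ i, (∑ j, B i j ^ 2 + (1 - p i) / p i * ∑ j, D i j ^ 2)
        ≤ ∏ i, Real.exp ((∑ j, B i j ^ 2 + (1 - p i) / p i * ∑ j, D i j ^ 2) - 1) := by
          refine Finset.prod_le_prod (fun i _ => ?_) fun i _ => ?_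
          · have e1 : 0 ≤ 1 - p i := by linarith [hp1' i]
            have e2 := hp i
            positivity
          · have := Real.add_one_le_exp
              ((∑ j, B i j ^ 2 + (1 - p i) / p i * ∑ j, D i j ^ 2) - 1)
            linarith
      _ = Real.exp (∑ i, ((∑ j, B i j ^ 2 + (1 - p i) / p i * ∑ j, D i j ^ 2) - 1)) := by
          rw [Real.exp_sum]
      _ ≤ 1 := by
          rw [Real.exp_le_one_iff, Finset.sum_sub_distrib, Finset.sum_const, Finset.card_univ,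
            Fintype.card_fin, nsmul_eq_mul]
          push_cast
          linarith
  have h6 : 0 ≤ ∑ i, √(∑ j, Q i j ^ 2) * ∏ l ∈ univ.erase i, √(∑ j, K l j ^ 2) := by positivity
  refine h1.trans ?_
  refine le_of_sq_le_sq ?_ zero_le_one
  rw [one_pow]
  exact h2.trans h5

end Pool.Agent.N787.CPKEY2
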