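import Mathlib
import Pool.Agent.N604.MW.Stm4
import Pool.Agent.N604.MW.KMeas

set_option autoImplicit false

/-!
# The expectation of a product of exponential sums
-/

namespace Pool.Agent.N787.KVPhi

open Finset MeasureTheory Pool.Agent.N604.MW

theorem e_add (x y : ℝ) : e (x + y) = e x * e y := by
  unfold e
  rw [← Complex.exp_add]
  congr 1
  push_cast
  ring

theorem e_zero : e 0 = 1 := by simp [e]

theorem e_sum {ι : Type} (s : Finset ι) (f : ι → ℝ) : e (∑ i ∈ s, f i) = ∏ i ∈ s, e (f i) := by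
  classical
  induction s using Finset.induction_on with
  | empty => simp [e_zero]
  | insert a s ha ih => rw [sum_insert ha, prod_insert ha, e_add, ih]

theorem summable_qq (β : ℝ) : Summable fun h : ℤ => qq (β + h) := by
  have h1 : Summable fun n : ℤ => 1 / |(n : ℝ) + β| ^ (2 : ℝ) :=
    (Real.summable_one_div_int_add_rpow β 2).2 (by norm_num)
  refine Summable.of_norm_bounded_eventually h1 ?_
  have hfin : {n : ℤ | |β + n| ≤ 2}.Finite := by
    refine (Set.finite_Icc ⌈-2 - β⌉ ⌊2 - β⌋).subset ?_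
    intro n hn
    have := abs_le.1 (show |β + n| ≤ 2 from hn)
    exact ⟨Int.ceil_le.2 (by linarith [this.1]), Int.le_floor.2 (by linarith [this.2])⟩
  filter_upwards [hfin.compl_mem_cofinite] with n hn
  have hn' : ¬ |β + n| ≤ 2 := hn
  rw [Real.norm_of_nonneg (qq_nonneg _), qq, if_neg hn', Real.rpow_two, sq_abs, add_comm]

theorem norm_le_qq {cc : ℝ → ℂ} (h1 : ∀ β, ‖cc β‖ ≤ 1) (h2 : ∀ β, 2 ≤ |β| → ‖cc β‖ ≤ 1 / |β| ^ 2)
    (β : ℝ) : ‖cc β‖ ≤ qq β := by
  unfold qq
  split_ifs with h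
  · exact h1 β
  · have := h2 β (not_le.1 h).le
    rwa [sq_abs] at this

theorem prod_hasSum (n : ℕ) : ∀ (f : Fin n → ℤ → ℂ) (a : Fin n → ℂ),
    (∀ j, Summable fun h => ‖f j h‖) → (∀ j, HasSum (f j) (a j)) →
    (Summable fun h : Fin n → ℤ => ‖∏ j, f j (h j)‖) ∧
      HasSum (fun h : Fin n → ℤ => ∏ j, f j (h j)) (∏ j, a j) := by
  induction n with
  | zero =>
    intro f a _ _
    constructor
    · exact (hasSum_unique _).summable
    · have h1 : (fun h : Fin 0 → ℤ => ∏ j, f j (h j)) = fun _ => 1 := by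
        funext h
        exact Fin.prod_univ_zero _
      have h2 : (∏ j, a j) = 1 := Fin.prod_univ_zero _
      rw [h1, h2]
      exact hasSum_unique _
  | succ n ih =>
    intro f a hf ha
    obtain ⟨ih1, ih2⟩ := ih (fun j => f j.succ) (fun j => a j.succ) (fun j => hf _) (fun j => ha _)
    have h1 : Summable fun p : ℤ × (Fin n → ℤ) => ‖f 0 p.1 * ∏ j : Fin n, f j.succ (p.2 j)‖ :=
      Summable.mul_norm (f := fun h => f 0 h)
        (g := fun h : Fin n → ℤ => ∏ j : Fin n, f j.succ (h j)) (hf 0) ih1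
    have h2 : Summable fun p : ℤ × (Fin n → ℤ) => f 0 p.1 * ∏ j : Fin n, f j.succ (p.2 j) :=
      h1.of_norm
    have h3 : HasSum (fun p : ℤ × (Fin n → ℤ) => f 0 p.1 * ∏ j : Fin n, f j.succ (p.2 j))
      (a 0 * ∏ j : Fin n, a j.succ) :=
      HasSum.mul (f := fun h => f 0 h) (g := fun h : Fin n → ℤ => ∏ j : Fin n, f j.succ (h j))
        (s := a 0) (t := ∏ j : Fin n, a j.succ) (ha 0) ih2 h2
    let E : ℤ × (Fin n → ℤ) ≃ (Fin (n + 1) → ℤ) := Fin.consEquiv fun _ => ℤ
    have key : ∀ p : ℤ × (Fin n → ℤ), ∏ j, f j (E p j) =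
        f 0 p.1 * ∏ j : Fin n, f j.succ (p.2 j) := by
      intro p
      rw [Fin.prod_univ_succ]
      rfl
    have k1 : ((fun h : Fin (n + 1) → ℤ => ‖∏ j, f j (h j)‖) ∘ E) =
        fun p => ‖f 0 p.1 * ∏ j : Fin n, f j.succ (p.2 j)‖ := by
      funext p
      exact congrArg norm (key p)
    have k2 : ((fun h : Fin (n + 1) → ℤ => ∏ j, f j (h j)) ∘ E) =
        fun p => f 0 p.1 * ∏ j : Fin n, f j.succ (p.2 j) := by
      funext p
      exact key p
    constructor
    · rw [← E.summable_iff, k1]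
      exact h1
    · rw [← E.hasSum_iff, k2, Fin.prod_univ_succ]
      exact h3

section

variable {n k : ℕ} (F : ℕ → ℝ) (x : Fin n → ℕ) (cc : ℝ → ℂ)

/-- one term of the series -/
noncomputable def trm (k : ℕ) (γ : Fin n → ℝ) (θ : Fin k → ℝ) : ℂ :=
  ∏ j, (cc (γ j) * e (γ j * QQ k F θ (x j)))

theorem trm_eq (γ : Fin n → ℝ) (θ : Fin k → ℝ) : trm F x cc k γ θ =
    (∏ j, cc (γ j)) * e (∑ j, γ j * F (x j)) *
      e (∑ l, θ l * ∑ j, γ j * (x j : ℝ) ^ ((l : ℕ) + 1)) := by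
  rw [trm, Finset.prod_mul_distrib, ← e_sum, mul_assoc, ← e_add]
  congr 2
  simp only [QQ, mul_add, Finset.sum_add_distrib, Finset.mul_sum]
  congr 1
  rw [Finset.sum_comm]
  refine Finset.sum_congr rfl fun l _ => Finset.sum_congr rfl fun j _ => ?_
  ring

theorem trm_norm (γ : Fin n → ℝ) (θ : Fin k → ℝ) : ‖trm F x cc k γ θ‖ = ∏ j, ‖cc (γ j)‖ := by
  rw [trm_eq, norm_mul, norm_mul, e_norm, e_norm, mul_one, mul_one, norm_prod]

theorem trm_continuous (γ : Fin n → ℝ) : Continuous fun θ : Fin k → ℝ => trm F x cc k γ θ := by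
  simp_rw [trm_eq]
  refine continuous_const.mul (e_continuous.comp ?_)
  fun_prop

theorem trm_integrable (γ : Fin n → ℝ) : Integrable (fun θ => trm F x cc k γ θ) (GM k) := by
  refine Integrable.of_bound (C := ∏ j, ‖cc (γ j)‖) (trm_continuous F x cc γ).aestronglyMeasurable ?_
  exact Filter.Eventually.of_forall fun θ => (trm_norm F x cc γ θ).le

/-- the Gaussian factor -/
noncomputable def ga (k : ℕ) (x : Fin n → ℕ) (γ : Fin n → ℝ) : ℝ :=
  Real.exp (-(2 * Real.pi ^ 2 * ∑ l : Fin k, (∑ j, γ j * (x j : ℝ) ^ ((l : ℕ) + 1)) ^ 2))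

theorem trm_integral (h1 : S_CHAR) (γ : Fin n → ℝ) : ‖∫ θ, trm F x cc k γ θ ∂(GM k)‖ =
    (∏ j, ‖cc (γ j)‖) * ga k x γ := by
  simp_rw [trm_eq]
  rw [integral_const_mul, h1, norm_mul, norm_mul, e_norm, mul_one, norm_prod, Complex.norm_real,
    Real.norm_of_nonneg (Real.exp_pos _).le]
  rfl

theorem ga_pos (γ : Fin n → ℝ) : 0 < ga k x γ := Real.exp_pos _

theorem ga_le_one (γ : Fin n → ℝ) : ga k x γ ≤ 1 := by
  refine Real.exp_le_one_iff.2 ?_
  have : 0 ≤ 2 * Real.pi ^ 2 * ∑ l : Fin k, (∑ j, γ j * (x j : ℝ) ^ ((l : ℕ) + 1)) ^ 2 := by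
    positivity
  linarith

end

/-- summability of the weights -/
theorem summable_prod_qq {n : ℕ} (β : Fin n → ℝ) :
    Summable fun h : Fin n → ℤ => ∏ j, qq (β j + h j) := by
  have h1 : ∀ j : Fin n, Summable fun h : ℤ => ‖((qq (β j + h) : ℝ) : ℂ)‖ := by
    intro j
    refine (summable_qq (β j)).congr fun h => ?_
    rw [Complex.norm_real, Real.norm_of_nonneg (qq_nonneg _)]
  have h2 := (prod_hasSum n (fun j h => ((qq (β j + h) : ℝ) : ℂ)) _ h1
    (fun j => (h1 j).of_norm.hasSum)).1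
  refine h2.congr fun h => ?_
  rw [norm_prod]
  refine Finset.prod_congr rfl fun j _ => ?_
  rw [Complex.norm_real, Real.norm_of_nonneg (qq_nonneg _)]

theorem summable_term {n : ℕ} (k : ℕ) (β : Fin n → ℝ) (x : Fin n → ℕ) :
    Summable fun h : Fin n → ℤ => (∏ j, qq (β j + h j)) * ga k x (fun j => β j + h j) := by
  refine Summable.of_nonneg_of_le (fun h => ?_) (fun h => ?_) (summable_prod_qq β)
  · exact mul_nonneg (Finset.prod_nonneg fun j _ => qq_nonneg _) (ga_pos _ _).le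
  · exact mul_le_of_le_one_right (Finset.prod_nonneg fun j _ => qq_nonneg _) (ga_le_one _ _)

theorem one_x (h1 : S_CHAR) (h2 : S_FLOOR) {n : ℕ} (k : ℕ) (F : ℕ → ℝ) (β : Fin n → ℝ)
    (x : Fin n → ℕ) :
    ‖∫ θ, ∏ j, (((Real.sin (Real.pi * QQ k F θ (x j)) ^ 2 : ℝ) : ℂ) *
      e (β j * (⌊QQ k F θ (x j)⌋ : ℤ))) ∂(GM k)‖ ≤
      ∑' h : Fin n → ℤ, (∏ j, qq (β j + h j)) * ga k x (fun j => β j + h j) := by
  obtain ⟨cc, hc1, hc2, hc3⟩ := h2
  have hcq := norm_le_qq hc1 hc2
  have hns : ∀ j : Fin n, ∀ θ : Fin k → ℝ, Summable fun h : ℤ =>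
      ‖cc (β j + h) * e ((β j + h) * QQ k F θ (x j))‖ := by
    intro j θ
    refine Summable.of_nonneg_of_le (fun h => norm_nonneg _) (fun h => ?_) (summable_qq (β j))
    rw [norm_mul, e_norm, mul_one]
    exact hcq _
  have hser : ∀ θ : Fin k → ℝ, ∏ j, (((Real.sin (Real.pi * QQ k F θ (x j)) ^ 2 : ℝ) : ℂ) *
      e (β j * (⌊QQ k F θ (x j)⌋ : ℤ))) = ∑' h : Fin n → ℤ, trm F x cc k (fun j => β j + h j) θ := by
    intro θ
    have h3 := (prod_hasSum n (fun j h => cc (β j + h) * e ((β j + h) * QQ k F θ (x j))) _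
      (fun j => hns j θ) (fun j => hc3 (β j) (QQ k F θ (x j)))).2
    exact h3.tsum_eq.symm
  simp_rw [hser]
  have hle : ∀ h : Fin n → ℤ, ∏ j, ‖cc (β j + h j)‖ ≤ ∏ j, qq (β j + h j) := fun h =>
    Finset.prod_le_prod (fun j _ => norm_nonneg _) fun j _ => hcq _
  have hint := hasSum_integral_of_summable_integral_norm (μ := GM k)
    (F := fun (h : Fin n → ℤ) θ => trm F x cc k (fun j => β j + h j) θ)
    (fun h => trm_integrable F x cc _) (by
      refine Summable.of_nonneg_of_le (fun h => integral_nonneg fun _ => norm_nonneg _)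
        (fun h => ?_) (summable_prod_qq β)
      simp_rw [trm_norm]
      rw [integral_const, probReal_univ, one_smul]
      exact hle h)
  rw [← hint.tsum_eq]
  have hb : ∀ h : Fin n → ℤ, ‖∫ θ, trm F x cc k (fun j => β j + h j) θ ∂(GM k)‖ ≤
      (∏ j, qq (β j + h j)) * ga k x (fun j => β j + h j) := by
    intro h
    rw [trm_integral F x cc h1]
    exact mul_le_mul_of_nonneg_right (hle h) (ga_pos _ _).le
  exact tsum_of_norm_bounded (summable_term k β x).hasSum hb

theorem phi (h1 : S_CHAR) (h2 : S_FLOOR) : S_PHI := by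
  intro n k X F β hX
  have hGS : ∀ h : Fin n → ℤ, (∏ j, qq (β j + h j)) * GS n k X (fun j => β j + h j) =
      ∑ x ∈ Fintype.piFinset (fun _ : Fin n => Finset.Icc X (2 * X)),
        (∏ j, qq (β j + h j)) * ga k x (fun j => β j + h j) := by
    intro h
    rw [GS, Finset.mul_sum]
    rfl
  have hsum : ∀ x ∈ Fintype.piFinset (fun _ : Fin n => Finset.Icc X (2 * X)),
      Summable fun h : Fin n → ℤ => (∏ j, qq (β j + h j)) * ga k x (fun j => β j + h j) :=
    fun x _ => summable_term k β x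
  have hS : Summable fun h : Fin n → ℤ =>
      (∏ j, qq (β j + h j)) * GS n k X (fun j => β j + h j) := by
    simp_rw [hGS]
    exact summable_sum hsum
  refine ⟨hS, ?_⟩
  have h3 : ∑' h : Fin n → ℤ, (∏ j, qq (β j + h j)) * GS n k X (fun j => β j + h j) =
      ∑ x ∈ Fintype.piFinset (fun _ : Fin n => Finset.Icc X (2 * X)),
        ∑' h : Fin n → ℤ, (∏ j, qq (β j + h j)) * ga k x (fun j => β j + h j) := by
    simp_rw [hGS]
    exact Summable.tsum_finsetSum hsum
  rw [h3, Finset.mul_sum]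
  have h4 : ∀ θ : Fin k → ℝ, ∏ j, TQ k F X θ (β j) =
      ∑ x ∈ Fintype.piFinset (fun _ : Fin n => Finset.Icc X (2 * X)),
        ((∏ j, lam (x j) : ℝ) : ℂ) * ∏ j, (((Real.sin (Real.pi * QQ k F θ (x j)) ^ 2 : ℝ) : ℂ) *
          e (β j * (⌊QQ k F θ (x j)⌋ : ℤ))) := by
    intro θ
    simp only [TQ]
    rw [Finset.prod_univ_sum]
    refine Finset.sum_congr rfl fun x _ => ?_
    rw [Complex.ofReal_prod, ← Finset.prod_mul_distrib]
    refine Finset.prod_congr rfl fun j _ => ?_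
    push_cast
    ring
  have hmeas : ∀ x : Fin n → ℕ, Measurable fun θ : Fin k → ℝ =>
      ∏ j, (((Real.sin (Real.pi * QQ k F θ (x j)) ^ 2 : ℝ) : ℂ) *
          e (β j * (⌊QQ k F θ (x j)⌋ : ℤ))) := by
    intro x
    refine Finset.measurable_prod _ fun j _ => ?_
    have hQ := QQ_measurable k F (x j)
    have hf : Measurable fun θ : Fin k → ℝ => ((⌊QQ k F θ (x j)⌋ : ℤ) : ℝ) :=
      (measurable_of_countable (fun n : ℤ => (n : ℝ))).comp (Int.measurable_floor.comp hQ)
    exact (Complex.measurable_ofReal.comp ((Real.measurable_sin.comp (hQ.const_mul _)).pow_const 2)).mul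
      (e_continuous.measurable.comp (hf.const_mul _))
  have hint : ∀ x : Fin n → ℕ, Integrable (fun θ : Fin k → ℝ =>
      ∏ j, (((Real.sin (Real.pi * QQ k F θ (x j)) ^ 2 : ℝ) : ℂ) *
          e (β j * (⌊QQ k F θ (x j)⌋ : ℤ)))) (GM k) := by
    intro x
    refine Integrable.of_bound (C := 1) (hmeas x).aestronglyMeasurable ?_
    refine Filter.Eventually.of_forall fun θ => ?_
    rw [norm_prod]
    refine Finset.prod_le_one (fun j _ => norm_nonneg _) fun j _ => ?_
    rw [norm_mul, e_norm, mul_one, Complex.norm_real, Real.norm_of_nonneg (sq_nonneg _)]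
    exact Real.sin_sq_le_one _
  simp_rw [h4]
  rw [integral_finsetSum _ fun x _ => (hint x).const_mul _]
  refine (norm_sum_le _ _).trans (Finset.sum_le_sum fun x hx => ?_)
  rw [integral_const_mul, norm_mul, Complex.norm_real]
  have hlam : ∀ j, 0 ≤ lam (x j) := fun j => klam_nonneg _
  rw [Real.norm_of_nonneg (Finset.prod_nonneg fun j _ => hlam j)]
  have hX1 : (1 : ℝ) ≤ X := by exact_mod_cast hX
  have h5 : ∏ j, lam (x j) ≤ Real.log (2 * X) ^ n := by
    calc ∏ j, lam (x j) ≤ ∏ _j : Fin n, Real.log (2 * X) := by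
          refine Finset.prod_le_prod (fun j _ => hlam j) fun j _ => ?_
          exact lam_le X (x j) hX (Finset.mem_Icc.1 (Fintype.mem_piFinset.1 hx j)).2
      _ = Real.log (2 * X) ^ n := by simp
  exact mul_le_mul h5 (one_x h1 h2 k F β x) (norm_nonneg _)
    (pow_nonneg (Real.log_nonneg (by linarith)) _)

end Pool.Agent.N787.KVPhi

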