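import Mathlib
import Pool.Agent.N988.EA.Stm5

/-!
# EA/WIAN (helper787, project EA of helper988): Wintner's theorem and Anderson's inequality on the
line
-/

open MeasureTheory Set Filter
open scoped ENNReal Topology

set_option autoImplicit false

namespace Pool.Agent.N787.EA

open Pool.Agent.N988.EA

theorem rearr {a b c d : ℝ≥0∞} (h1 : b ≤ a) (h2 : d ≤ c) : b * c + a * d ≤ a * c + b * d := by
  obtain ⟨a', rfl⟩ := exists_add_of_le h1
  obtain ⟨c', rfl⟩ := exists_add_of_le h2
  calc b * (d + c') + (b + a') * d ≤ b * (d + c') + (b + a') * d + a' * c' := le_self_add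
    _ = (b + a') * (d + c') + b * d := by ring

theorem even_le {f : ℝ → ℝ≥0∞} (he : ∀ x, f (-x) = f x) (ha : AntitoneOn f (Ioi 0)) {u v : ℝ}
    (h : |u| ≤ |v|) (hu : u ≠ 0) : f v ≤ f u := by
  have habs : ∀ w : ℝ, f |w| = f w := by
    intro w
    rcases abs_choice w with h1 | h1
    · rw [h1]
    · rw [h1, he]
  rw [← habs u, ← habs v]
  have h0 : 0 < |u| := abs_pos.2 hu
  exact ha h0 (h0.trans_le h) h

theorem wi_key {f g : ℝ → ℝ≥0∞} (hf : Measurable f) (hg : Measurable g) (fe : ∀ x, f (-x) = f x)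
    (ge : ∀ x, g (-x) = g x) (fa : AntitoneOn f (Ioi 0)) (ga : AntitoneOn g (Ioi 0))
    {x x' : ℝ} (h0 : 0 ≤ x) (h : x ≤ x') :
    ∫⁻ y, f (x' - y) * g y ≤ ∫⁻ y, f (x - y) * g y := by
  have hs : ∀ F : ℝ → ℝ≥0∞, Measurable F → 2 * ∫⁻ y, F y = ∫⁻ y, (F y + F (x + x' - y)) := by
    intro F hF
    rw [lintegral_add_left hF, lintegral_sub_left_eq_self F (x + x'), two_mul]
  have h1 : 2 * ∫⁻ y, f (x' - y) * g y ≤ 2 * ∫⁻ y, f (x - y) * g y := by
    rw [hs (fun y => f (x' - y) * g y) (by fun_prop), hs (fun y => f (x - y) * g y) (by fun_prop)]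
    refine lintegral_mono_ae ?_
    have hae : ∀ c : ℝ, ∀ᵐ y : ℝ, y ≠ c := fun c => by
      rw [ae_iff]
      have : {y : ℝ | ¬ y ≠ c} = {c} := by ext y; simp
      rw [this]
      exact measure_singleton c
    filter_upwards [hae x, hae x', hae 0, hae (x + x')] with y e1 e2 e3 e4
    have s1 : f (x' - (x + x' - y)) = f (x - y) := by
      rw [← fe (x - y)]
      congr 1
      ring
    have s2 : f (x - (x + x' - y)) = f (x' - y) := by
      rw [← fe (x' - y)]
      congr 1
      ring
    rw [s1, s2]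
    rcases le_total y ((x + x') / 2) with hy | hy
    · refine rearr (even_le fe fa ?_ (sub_ne_zero.2 e1.symm)) (even_le ge ga ?_ e3)
      · exact sq_le_sq.1 (by nlinarith)
      · exact sq_le_sq.1 (by nlinarith)
    · have h2 : f (x - y) ≤ f (x' - y) := by
        refine even_le fe fa ?_ (sub_ne_zero.2 e2.symm)
        exact sq_le_sq.1 (by nlinarith)
      have h3 : g y ≤ g (x + x' - y) := by
        refine even_le ge ga ?_ (sub_ne_zero.2 e4.symm)
        exact sq_le_sq.1 (by nlinarith)
      have h4 := rearr h2 h3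
      calc f (x' - y) * g y + f (x - y) * g (x + x' - y) =
          f (x - y) * g (x + x' - y) + f (x' - y) * g y := add_comm _ _
        _ ≤ f (x' - y) * g (x + x' - y) + f (x - y) * g y := h4
        _ = _ := add_comm _ _
  exact (ENNReal.mul_le_mul_iff_right (by norm_num) (by norm_num)).1 h1

theorem conv_even {f g : ℝ → ℝ≥0∞} (fe : ∀ x, f (-x) = f x) (ge : ∀ x, g (-x) = g x) (x : ℝ) :
    ∫⁻ y, f (-x - y) * g y = ∫⁻ y, f (x - y) * g y := by
  rw [← lintegral_neg_eq_self (fun y => f (-x - y) * g y)]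
  refine lintegral_congr fun y => ?_
  rw [ge, ← fe (x - y)]
  congr 2
  ring

theorem t_WI : S_WI := by
  intro f g hf hg fe ge fa ga x x' h
  have habs : ∀ w : ℝ, ∫⁻ y, f (|w| - y) * g y = ∫⁻ y, f (w - y) * g y := by
    intro w
    rcases abs_choice w with h1 | h1
    · rw [h1]
    · rw [h1, conv_even fe ge]
  rw [← habs x, ← habs x']
  exact wi_key hf hg fe ge fa ga (abs_nonneg x) h

theorem t_AN : S_AN := by
  rintro ν ⟨f, hf, fe, fa, rfl⟩ t x x' h
  have key : ∀ w : ℝ, (volume.withDensity f) (Icc (w - t) (w + t)) =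
      ∫⁻ y, (Icc (-t) t).indicator (fun _ => (1 : ℝ≥0∞)) (w - y) * f y := by
    intro w
    rw [withDensity_apply _ measurableSet_Icc, ← lintegral_indicator measurableSet_Icc]
    refine lintegral_congr fun y => ?_
    by_cases hy : y ∈ Icc (w - t) (w + t)
    · have h1 : w - y ∈ Icc (-t) t := ⟨by linarith [hy.2], by linarith [hy.1]⟩
      rw [indicator_of_mem hy, indicator_of_mem h1, one_mul]
    · have h1 : w - y ∉ Icc (-t) t := fun h2 => hy ⟨by linarith [h2.2], by linarith [h2.1]⟩
      rw [indicator_of_notMem hy, indicator_of_notMem h1, zero_mul]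
  rw [key x, key x']
  refine t_WI _ f (measurable_const.indicator measurableSet_Icc) hf (fun y => ?_) fe ?_ fa x x' h
  · by_cases hy : y ∈ Icc (-t) t
    · have h1 : -y ∈ Icc (-t) t := ⟨by linarith [hy.2], by linarith [hy.1]⟩
      rw [indicator_of_mem hy, indicator_of_mem h1]
    · have h1 : -y ∉ Icc (-t) t := fun h2 => hy ⟨by linarith [h2.2], by linarith [h2.1]⟩
      rw [indicator_of_notMem hy, indicator_of_notMem h1]
  · intro u hu v hv huv
    have hu' : (0 : ℝ) < u := hu
    by_cases hy : v ∈ Icc (-t) t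
    · have h1 : u ∈ Icc (-t) t := ⟨by linarith [hy.2], by linarith [hy.2]⟩
      rw [indicator_of_mem hy, indicator_of_mem h1]
    · rw [indicator_of_notMem hy]
      exact bot_le

theorem t_SUM : S_SUM := by
  rintro ν ν' hν hν' ⟨f, hf, fe, fa, rfl⟩ ⟨g, hg, ge, ga, rfl⟩
  have hc : ∀ x, (lconvolution g f volume) x = ∫⁻ y, f (x - y) * g y := by
    intro x
    rw [lconvolution_def]
    refine lintegral_congr fun y => ?_
    rw [mul_comm]
    congr 2
    ring
  refine ⟨lconvolution g f volume, measurable_lconvolution volume hg hf, fun x => ?_, ?_, ?_⟩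
  · rw [hc, hc, conv_even fe ge]
  · intro u hu v hv huv
    rw [hc, hc]
    have hu' : (0 : ℝ) < u := hu
    refine t_WI f g hf hg fe ge fa ga u v ?_
    rw [abs_of_pos hu', abs_of_pos (hu'.trans_le huv)]
    exact huv
  · have h1 := conv_withDensity_eq_lconvolution (μ := (volume : Measure ℝ)) hf hg
    rw [lconvolution_comm] at h1
    exact h1

end Pool.Agent.N787.EA
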