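import Pool.Agent.N979.CP.Stm4
import Pool.Agent.N526.CP.SPH
import Pool.Agent.N526.CP.FAM
import Pool.Agent.N526.CP.EXT
import Pool.Agent.N526.CP.REF

/-!
# FB/FAMG (helper787, project FB of helper979): the family of functions for all fillings
-/

set_option autoImplicit false

open MeasureTheory Metric Set Filter Topology InnerProductGeometry Matrix

namespace Pool.Agent.N787.FBFAMG

open Pool.Agent.H241R3.FV Pool.Agent.N526.CP Pool.Agent.N979.CP

theorem fam : S_FAM := FAM.t SPH.t (EXT.t REF.t)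

theorem cap_le {n : ℕ} (ρ : ℝ) (x y : Sph n) :
    capDist ρ x y ≤ angle (x : E n) (y : E n) := by
  have hx : ‖(x : E n)‖ = 1 := norm_eq_of_mem_sphere x
  have hy : ‖(y : E n)‖ = 1 := norm_eq_of_mem_sphere y
  unfold capDist angle
  rw [hx, hy, one_mul, div_one]
  apply Real.arccos_le_arccos
  have h1 : inner ℝ (x : E n) (y : E n) ≤ 1 := by
    have := real_inner_le_norm (x : E n) (y : E n)
    rwa [hx, hy, one_mul] at this
  have h2 := Real.sin_sq_add_cos_sq ρ
  have h3 : 0 ≤ Real.cos ρ ^ 2 := sq_nonneg _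
  nlinarith

theorem main : S_FAMG := by
  intro d hd M _ _ S hang s t R hP
  obtain ⟨hs0, hs1, ht0, ht1, hR, hz⟩ := hP
  have hsin : Real.sin (Real.arcsin t) = t := Real.sin_arcsin (by linarith) ht1.le
  obtain ⟨g, hg⟩ := fam d hd M S (Real.arcsin t) (Real.arcsin_pos.2 ht0)
    (Real.arcsin_lt_pi_div_two.2 ht1) (fun x y => (cap_le _ x y).trans (hang x y))
  rw [hsin] at hg
  have hR0 : R ≠ 0 := hR.ne'
  refine ⟨fun θ q => g θ q / R, ?_, ?_, ?_, ?_⟩
  · intro θ q q'
    rw [← sub_div, abs_div, abs_of_pos hR]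
    exact div_le_div_of_nonneg_right (hg.lip θ q q') hR.le
  · obtain ⟨C, hC⟩ := hg.lipθ
    refine ⟨C / R, fun θ θ' q => ?_⟩
    rw [← sub_div, abs_div, abs_of_pos hR, div_mul_eq_mul_div]
    exact div_le_div_of_nonneg_right (hC θ θ' q) hR.le
  · intro θ x
    show g θ (S.bd x) / R = _
    rw [hg.bdv]
  · intro q
    have h1 : ∫ θ : Sph (d + 1), (g θ q / R) • (θ : E (d + 1)) ∂(sg (d + 1)) =
        R⁻¹ • ∫ θ : Sph (d + 1), g θ q • (θ : E (d + 1)) ∂(sg (d + 1)) := by
      rw [← integral_smul]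
      refine integral_congr_ae (Eventually.of_forall fun θ => ?_)
      show (g θ q / R) • (θ : E (d + 1)) = R⁻¹ • (g θ q • (θ : E (d + 1)))
      rw [smul_smul, div_eq_inv_mul]
    have h2 := hg.range q
    show ‖∫ θ : Sph (d + 1), (g θ q / R) • (θ : E (d + 1)) ∂(sg (d + 1))‖ ≤ zf d s
    rw [h1, norm_smul, norm_inv, Real.norm_eq_abs, abs_of_pos hR, inv_mul_le_iff₀ hR, ← hz]
    exact h2

end Pool.Agent.N787.FBFAMG
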